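import Pool.Agent.Helper6.OB.Main

/-!
# MP_81e84b_lc: the ordered theorem for words with a bounded number of occurrences of variables

Here ALL occurrences of a variable in the omega-variable word precede all occurrences of the next
ones. The definitions of the statement are in `Pool/Agent/Helper6/CS/Model.lean` and
`Pool/Agent/Helper6/CS/Stmt.lean` (structures for second order arithmetic, models of `ACA_0`, codes of
finite words, substitution), in `Pool/Agent/Helper41/CS/OStmt.lean` (ordered omega-variable words,
colourings of words) and in `Pool/Agent/Helper6/OB/Stmt.lean` (the sequence of the variables which occur
in a word, the statement in a structure). The proof is written out in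
`Pool/Agent/Helper6/OB/Paper.lean`.
-/

namespace Pool.Agent.Results.MP_81e84b_lc.BoundedOccurrences

open Pool.Agent.Helper6.CS

/-- For every standard `r`, every model `(M, S)` of `ACA_0` (nonstandard models included) satisfies:
for all numbers of colours `l ≥ 1`, all finite alphabets, all numbers `n` of variables and all
colourings of the finite words over the alphabet and `x_0, .., x_(n-1)` with `l` colours there is an
omega-variable word `W` in the model, in which all occurrences of `x_i` come before all occurrences of
`x_j` for `i < j`, such that for all words `v` with at most `r` occurrences of variables the colour of
`W[v]` depends only on the sequence of the variables which occur in `v`. -/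
theorem result (r : ℕ) (A : L2Structure) (hA : IsModelACA0 A) : A.SatOrderedBounded r :=
  Pool.Agent.Helper6.OB.main r A hA

end Pool.Agent.Results.MP_81e84b_lc.BoundedOccurrences
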