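import Pool.Agent.Helper6.CS.Main

/-!
# MP_81e84b_lc: every model of ACA_0 satisfies OVW^n, for every standard n

The definitions of the statement are in `Pool/Agent/Helper6/CS/Model.lean` (structures for second
order arithmetic, models of `ACA_0`) and `Pool/Agent/Helper6/CS/Stmt.lean` (codes of finite words,
`n`-variable words, omega-variable words, `W[v]`, `OVW^n` in a structure). As in the problem file, only
the first occurrences of the variables are ordered. The proof is written out in
`Pool/Agent/Helper6/CS/Paper.lean`.
-/

namespace Pool.Agent.Results.MP_81e84b_lc.CarlsonSimpson

open Pool.Agent.Helper6.CS

/-- For every standard `n`, every model `(M, S)` of `ACA_0` (nonstandard models included) satisfies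
`OVW^n`: for all numbers of colours `l ≥ 1`, all finite alphabets and every colouring of the
`n`-variable words with `l` colours there is an omega-variable word `W` in the model such that all
`W[v]`, `v` an `n`-variable word, have the same colour. -/
theorem result (n : ℕ) (A : L2Structure) (hA : IsModelACA0 A) : A.SatOVW n :=
  Pool.Agent.Helper6.CS.main n A hA

end Pool.Agent.Results.MP_81e84b_lc.CarlsonSimpson
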